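import Mathlib
import Pool.Agent.V11100.Tools

open Filter Topology

namespace Pool.Agent.Results.MP_b3b95b_an.BoundedExtensions

variable (𝕜 : Type*) [RCLike 𝕜] {E : Type*} [NormedAddCommGroup E] [NormedSpace 𝕜 E]

/-- The closed linear span `[x_n]`. -/
def clspan (x : ℕ → E) : Submodule 𝕜 E := (Submodule.span 𝕜 (Set.range x)).topologicalClosure

theorem mem_clspan (x : ℕ → E) (n : ℕ) : x n ∈ clspan 𝕜 x :=
  Submodule.le_topologicalClosure _ (Submodule.subset_span ⟨n, rfl⟩)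

/-- `(x_n)` is a strictly bounded minimal sequence with associated functionals `(φ_n)` on `[x_n]`. -/
structure IsStrictlyBoundedMinimal (x : ℕ → E) (φ : ℕ → StrongDual 𝕜 (clspan 𝕜 x)) : Prop where
  biorth : ∀ i j, φ i ⟨x j, mem_clspan 𝕜 x j⟩ = if i = j then 1 else 0
  bound_vectors : ∃ C : ℝ, ∀ n, ‖x n‖ ≤ C
  bound_functionals : ∃ C : ℝ, ∀ n, ‖φ n‖ ≤ C

variable {𝕜}

/-- The pre-annihilator `[f_n]_⊥`. -/
def preAnn (f : ℕ → StrongDual 𝕜 E) : Submodule 𝕜 E where
  carrier := {v | ∀ n, f n v = 0}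
  add_mem' := fun {a b} ha hb n => by rw [map_add, ha n, hb n, add_zero]
  zero_mem' := fun n => map_zero _
  smul_mem' := fun c a ha n => by rw [map_smul, ha n, smul_zero]

end Pool.Agent.Results.MP_b3b95b_an.BoundedExtensions

open Pool.Agent.Results.MP_b3b95b_an.BoundedExtensions in
/-- Strictly bounded minimal sequences have uniformly bounded extensions `f_n` of their associated
functionals for which `[x_n] + [f_n]_⊥` is dense. -/
theorem Pool.Agent.Results.MP_b3b95b_an.BoundedExtensions.result {𝕜 : Type*} [RCLike 𝕜]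
    {E : Type*} [NormedAddCommGroup E] [NormedSpace 𝕜 E] [TopologicalSpace.SeparableSpace E]
    (x : ℕ → E) (φ : ℕ → StrongDual 𝕜 (clspan 𝕜 x)) (hx : IsStrictlyBoundedMinimal 𝕜 x φ) :
    ∃ f : ℕ → StrongDual 𝕜 E, (∀ n, ∀ v : clspan 𝕜 x, f n v = φ n v) ∧
      (∃ C : ℝ, ∀ n, ‖f n‖ ≤ C) ∧
      Dense ((clspan 𝕜 x ⊔ preAnn f : Submodule 𝕜 E) : Set E) := by
  obtain ⟨B, hB⟩ := hx.bound_functionals
  have hext : ∀ n, ∃ F : StrongDual 𝕜 E, (∀ v : clspan 𝕜 x, F v = φ n v) ∧ ‖F‖ = ‖φ n‖ := fun n =>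
    exists_extension_norm_eq (clspan 𝕜 x) (φ n)
  choose F hF1 hF2 using hext
  have hFb : ∀ i j, F i (x j) = if i = j then 1 else 0 := by
    intro i j
    rw [← hx.biorth i j, ← hF1 i ⟨x j, mem_clspan 𝕜 x j⟩]
  have hFn : ∀ i, ‖F i‖ ≤ B := fun i => by rw [hF2]; exact hB i
  obtain ⟨f, y, g, hf1, hf2, hf3, _, _, _, hv, _⟩ := Pool.Agent.V11100.completion x F hFb hFn
    (TopologicalSpace.denseSeq E)
  refine ⟨f, ?_, ⟨2 * B + 1, hf1⟩, ?_⟩
  · intro n v
    have h1 : clspan 𝕜 x ≤ LinearMap.ker ((f n - F n : StrongDual 𝕜 E) : E →ₗ[𝕜] 𝕜) := by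
      apply Submodule.topologicalClosure_minimal
      · rw [Submodule.span_le]
        rintro _ ⟨j, rfl⟩
        show f n (x j) - F n (x j) = 0
        rw [hf2, hFb, sub_self]
      · exact (f n - F n).isClosed_ker
    have h2 : f n v - F n v = 0 := h1 v.2
    rw [← hF1 n v]
    exact sub_eq_zero.mp h2
  · have h1 : (Submodule.span 𝕜 (Set.range x) ⊔ Submodule.span 𝕜 (Set.range y)).topologicalClosure
        ≤ (clspan 𝕜 x ⊔ preAnn f).topologicalClosure := by
      apply Submodule.topologicalClosure_mono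
      apply sup_le_sup
      · exact Submodule.le_topologicalClosure _
      · rw [Submodule.span_le]
        rintro _ ⟨j, rfl⟩
        intro n
        exact hf3 n j
    have h2 : Set.range (TopologicalSpace.denseSeq E) ⊆
        closure ((clspan 𝕜 x ⊔ preAnn f : Submodule 𝕜 E) : Set E) := by
      rintro _ ⟨j, rfl⟩
      exact h1 (hv j)
    have h3 := (TopologicalSpace.denseRange_denseSeq E).mono h2
    exact h3.of_closure
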